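import Mathlib
import Pool.Agent.H.MP_981e77_lc.B

namespace Pool.Agent.Results.MP_981e77_lc.Counter

open Pool.Agent.H.MP_981e77_lc

theorem result : ∃ (B : Type) (_ : Finite B) (S : Set (Fin 3 → B)),
    Hom (oneIn3 : Set (Fin 3 → Fin 2)) S ∧
    (∀ (X : Type) (_ : Finite X) (R : Set (Fin 3 → X)), AIP R → Hom R S) ∧
    ∀ p : ℕ, ¬ Hom (prod (E (3 ^ p)) NAE) S :=
  ⟨_, inferInstance, S, base_hom, fun _ _ R => aip_hom R, no_hom⟩

end Pool.Agent.Results.MP_981e77_lc.Counter
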